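import Pool.Agent.Lib.PolyVdW.Int

/-!
Partition regularity of the pattern `Q(d) (x + P_i(d))` for every nonzero `Q`, with `x`, `d` and
all `x + P_i(d)` positive and `d` divisible by any given `N`.
-/

namespace Pool.Agent.Results.MP_5597c5_co.DilatedPositive

open Polynomial Filter

theorem sign_keep {q x y : ℤ} (hq : q ≠ 0) (h1 : (0 < q * y) = (0 < q * x))
    (h2 : (q * y < 0) = (q * x < 0)) : (0 < x → 0 < y) ∧ (x < 0 → y < 0) := by
  rcases lt_or_gt_of_ne hq with hq | hq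
  · refine ⟨fun hx => ?_, fun hx => ?_⟩
    · have : q * y < 0 := by rw [h2]; exact mul_neg_of_neg_of_pos hq hx
      by_contra hy
      nlinarith
    · have : 0 < q * y := by rw [h1]; exact mul_pos_of_neg_of_neg hq hx
      by_contra hy
      nlinarith
  · refine ⟨fun hx => ?_, fun hx => ?_⟩
    · have : 0 < q * y := by rw [h1]; exact mul_pos hq hx
      by_contra hy
      nlinarith
    · have : q * y < 0 := by rw [h2]; exact mul_neg_of_pos_of_neg hq hx
      by_contra hy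
      nlinarith

theorem eventually_pos (Q : ℤ[X]) :
    ∃ M : ℕ, 0 < M ∧ ∀ d : ℤ, (M : ℤ) ≤ d → 0 < Q.leadingCoeff → 0 < Q.eval d := by
  by_cases hl : 0 < Q.leadingCoeff
  swap
  · exact ⟨1, one_pos, fun _ _ h => absurd h hl⟩
  by_cases hdeg : 0 < Q.degree
  swap
  · refine ⟨1, one_pos, fun d _ _ => ?_⟩
    rw [eq_C_of_degree_le_zero (not_lt.1 hdeg)] at hl ⊢
    rwa [leadingCoeff_C, ← eval_C (a := Q.coeff 0) (x := d)] at hl
  have hinj : Function.Injective (Int.castRingHom ℝ) := Int.cast_injective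
  have h := tendsto_atTop_of_leadingCoeff_nonneg (Q.map (Int.castRingHom ℝ))
    (by rwa [degree_map_eq_of_injective hinj]) (by
      rw [leadingCoeff_map_of_injective hinj]
      simpa using hl.le)
  obtain ⟨a, ha⟩ := eventually_atTop.1 (h.eventually_gt_atTop 0)
  obtain ⟨M, hM⟩ := exists_nat_ge a
  refine ⟨M + 1, Nat.succ_pos _, fun d hd _ => ?_⟩
  have h1 : ((M + 1 : ℕ) : ℝ) ≤ (d : ℝ) := by exact_mod_cast hd
  have h2 := ha (d : ℝ) (by push_cast at h1; linarith)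
  rw [eval_intCast_map] at h2
  simpa using h2

theorem positive (k : ℕ) (Q : ℤ[X]) (P : Fin k → ℤ[X]) (hQ : Q ≠ 0)
    (hP : ∀ i, (P i).eval 0 = 0) (N : ℕ) (hN : 0 < N) {κ : Type} [Finite κ] (χ : ℤ → κ) :
    ∃ x d : ℤ, 0 < x ∧ 0 < d ∧ (N : ℤ) ∣ d ∧ Q.eval d ≠ 0 ∧ ∀ i,
      0 < x + (P i).eval d ∧ χ (Q.eval d * (x + (P i).eval d)) = χ (Q.eval d * x) := by
  classical
  have hN' : (0 : ℤ) < N := by exact_mod_cast hN
  let g : ℤ[X] := C (N : ℤ) * X ^ 2
  have hg : ∀ s : ℤ, g.eval s = N * s ^ 2 := fun s => by simp [g]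
  have hQg : Q.comp g ≠ 0 := by
    rw [Ne, comp_eq_zero_iff]
    rintro (h | ⟨-, h⟩)
    · exact hQ h
    · have h0 := congrArg (eval 0) h
      have h1 := congrArg (eval 1) h
      rw [hg, eval_C] at h0 h1
      nlinarith
  obtain ⟨x, s, hs, hQs, h⟩ := Pool.Agent.Lib.PolyVdW.int_main (Q.comp g) hQg
    (insert X ((Finset.univ.image fun i => (P i).comp g) ∪
      Finset.univ.image fun i => -(P i).comp g)) (by
      intro p hp
      rcases Finset.mem_insert.1 hp with rfl | hp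
      · simp
      rcases Finset.mem_union.1 hp with hp | hp
      · obtain ⟨i, -, rfl⟩ := Finset.mem_image.1 hp
        rw [eval_comp, hg]
        simpa using hP i
      · obtain ⟨i, -, rfl⟩ := Finset.mem_image.1 hp
        rw [eval_neg, eval_comp, hg]
        simpa using hP i)
    (fun n => ((0 < n, n < 0), (χ n, χ (-n))) : ℤ → (Prop × Prop) × κ × κ)
  rw [eval_comp, hg] at hQs h
  have hd : (0 : ℤ) < N * s ^ 2 := by positivity
  have hX := h X (Finset.mem_insert_self _ _)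
  have hA := fun i => h _ (Finset.mem_insert_of_mem (Finset.mem_union_left _
    (Finset.mem_image_of_mem (fun i => (P i).comp g) (Finset.mem_univ i))))
  have hB := fun i => h _ (Finset.mem_insert_of_mem (Finset.mem_union_right _
    (Finset.mem_image_of_mem (fun i => -(P i).comp g) (Finset.mem_univ i))))
  simp only [eval_neg, eval_comp, hg, eval_X, Prod.mk.injEq] at hX hA hB
  rcases lt_trichotomy x 0 with hx | hx | hx
  · refine ⟨-x, N * s ^ 2, by linarith, hd, dvd_mul_right _ _, hQs, fun i => ⟨?_, ?_⟩⟩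
    · have := (sign_keep hQs (hB i).1.1 (hB i).1.2).2 hx
      linarith
    · have := (hB i).2.2
      convert this using 2 <;> ring
  · exfalso
    subst hx
    have h1 := hX.1.1
    have h2 := hX.1.2
    simp only [zero_add, mul_zero, lt_self_iff_false, eq_iff_iff, iff_false, not_lt] at h1 h2
    exact mul_ne_zero hQs hs (le_antisymm h1 h2)
  · exact ⟨x, N * s ^ 2, hx, hd, dvd_mul_right _ _, hQs, fun i =>
      ⟨(sign_keep hQs (hA i).1.1 (hA i).1.2).1 hx, (hA i).2.1⟩⟩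

theorem result (k : ℕ) (Q : ℤ[X]) (P : Fin k → ℤ[X]) (hQ : Q ≠ 0)
    (hP : ∀ i, (P i).eval 0 = 0) (N : ℕ) (hN : 0 < N) (r : ℕ)
    (χ : {n : ℤ // n ≠ 0} → Fin r) :
    ∃ x d : ℤ, 0 < x ∧ 0 < d ∧ (N : ℤ) ∣ d ∧ (∀ i : Fin k, 0 < x + (P i).eval d) ∧
      (0 < Q.leadingCoeff → 0 < Q.eval d) ∧ ∃ c : Fin r, ∀ i : Fin k,
        ∃ h : Q.eval d * (x + (P i).eval d) ≠ 0, χ ⟨Q.eval d * (x + (P i).eval d), h⟩ = c := by
  classical
  obtain ⟨M, hM, hMQ⟩ := eventually_pos Q
  let χ₀ : ℤ → Option (Fin r) := fun n => if h : n ≠ 0 then some (χ ⟨n, h⟩) else none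
  obtain ⟨x, d, hx, hd, hNd, hQd, h⟩ := positive k Q P hQ hP (N * M) (Nat.mul_pos hN hM) χ₀
  rw [Nat.cast_mul] at hNd
  have hx' : Q.eval d * x ≠ 0 := mul_ne_zero hQd hx.ne'
  refine ⟨x, d, hx, hd, (dvd_mul_right _ _).trans hNd, fun i => (h i).1,
    hMQ d (Int.le_of_dvd hd ((dvd_mul_left _ _).trans hNd)), χ ⟨_, hx'⟩, fun i => ?_⟩
  have h2 : Q.eval d * (x + (P i).eval d) ≠ 0 := mul_ne_zero hQd (h i).1.ne'
  have h1 := (h i).2
  simp only [χ₀] at h1
  rw [dif_pos hx', dif_pos h2] at h1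
  exact ⟨h2, Option.some.inj h1⟩

end Pool.Agent.Results.MP_5597c5_co.DilatedPositive
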