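import Pool.Agent.Work.MP_5597c5_co.Hedge.Core
import Pool.Agent.Work.MP_5597c5_co.Hedge.Neg

/-!
The pattern `Q(d) (x + P_i(d))` when `Q` has a simple zero at the origin and the constant terms
of the `P_i` are arbitrary.
-/

namespace Pool.Agent.Results.MP_5597c5_co.SimpleZero

open Polynomial

theorem result (k : ℕ) (Q : ℤ[X]) (P : Fin k → ℤ[X]) (hQ0 : Q.eval 0 = 0)
    (hQ1 : (derivative Q).eval 0 ≠ 0) (hP : Function.Injective P) :
    (∀ N : ℕ, 0 < N → ∀ (r : ℕ) (χ : {n : ℤ // n ≠ 0} → Fin r),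
      ∃ x d : ℤ, d ≠ 0 ∧ (N : ℤ) ∣ d ∧ ∃ c : Fin r, ∀ i : Fin k,
        ∃ h : Q.eval d * (x + (P i).eval d) ≠ 0, χ ⟨Q.eval d * (x + (P i).eval d), h⟩ = c) ↔
    ∃ c : ℤ, ∀ i j : Fin k, (P i).eval 0 ≠ c → (P j).eval 0 ≠ c → i = j := by
  classical
  obtain ⟨Q₁, rfl⟩ : X ∣ Q := by rwa [X_dvd_iff, coeff_zero_eq_eval_zero]
  have hQ₁ : Q₁.eval 0 ≠ 0 := by simpa using hQ1
  constructor
  · intro h
    by_contra hb
    obtain ⟨N, κ, _, χ, hN, hχ⟩ := Pool.Agent.Work.MP_5597c5_co.Hedge.neg Q₁ hQ₁ P hP (by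
      intro c
      by_contra hc
      refine hb ⟨c, fun i j hi hj => ?_⟩
      by_contra hij
      exact hc ⟨i, j, hij, hi, hj⟩)
    obtain ⟨x, d, hd, hNd, c, hc⟩ := h N hN _ fun n => Finite.equivFin κ (χ n.1)
    obtain ⟨i, j, hij⟩ := hχ x d hd hNd
    obtain ⟨_, h1⟩ := hc i
    obtain ⟨_, h2⟩ := hc j
    exact hij ((Finite.equivFin κ).injective (h1.trans h2.symm))
  · rintro ⟨c, hc⟩ N hN r χ
    obtain ⟨P₀, hP₀⟩ : ∃ P₀ : ℤ[X], ∀ i, P i = P₀ ∨ (P i).eval 0 = c := by
      by_cases hex : ∃ i₀, (P i₀).eval 0 ≠ c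
      · obtain ⟨i₀, h₀⟩ := hex
        refine ⟨P i₀, fun i => ?_⟩
        by_cases hi : (P i).eval 0 = c
        · exact Or.inr hi
        · exact Or.inl (by rw [hc i i₀ hi h₀])
      · exact ⟨0, fun i => Or.inr (by_contra fun hi => hex ⟨i, hi⟩)⟩
    let χ₀ : ℤ → Option (Fin r) := fun n => if h : n ≠ 0 then some (χ ⟨n, h⟩) else none
    let c' : ℤ := P₀.eval 0 - c
    obtain ⟨x, d, hd, hNd, hQd, h⟩ := Pool.Agent.Work.MP_5597c5_co.Hedge.core Q₁ hQ₁ c'
      (insert (C c') (insert (C c' + X)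
        ((Finset.univ.filter fun i => (P i).eval 0 = c).image fun i => P₀ - P i))) (by
        intro p hp
        rcases Finset.mem_insert.1 hp with rfl | hp
        · simp
        rcases Finset.mem_insert.1 hp with rfl | hp
        · simp
        obtain ⟨i, hi, rfl⟩ := Finset.mem_image.1 hp
        rw [eval_sub, (Finset.mem_filter.1 hi).2]) N hN χ₀
    have hnone : ∀ y, χ₀ y = χ₀ 0 → y = 0 := by
      intro y hy
      by_contra h0
      simp only [χ₀] at hy
      rw [dif_pos h0, dif_neg (not_not.2 rfl)] at hy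
      exact absurd hy (by simp)
    have hx : (X * Q₁).eval d * x ≠ 0 := by
      intro h0
      have h1 := h (C c') (Finset.mem_insert_self _ _)
      have h2 := h (C c' + X) (Finset.mem_insert_of_mem (Finset.mem_insert_self _ _))
      rw [h0] at h1 h2
      have h3 := (mul_eq_zero.1 (hnone _ h1)).resolve_left hQd
      have h4 := (mul_eq_zero.1 (hnone _ h2)).resolve_left hQd
      rw [eval_C] at h3
      rw [eval_add, eval_C, eval_X] at h4
      exact hd (by linear_combination h3 - h4)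
    refine ⟨x - P₀.eval d, d, hd, hNd, χ ⟨_, hx⟩, fun i => ?_⟩
    have h1 : χ₀ ((X * Q₁).eval d * (x - P₀.eval d + (P i).eval d)) =
        χ₀ ((X * Q₁).eval d * x) := by
      rcases hP₀ i with hi | hi
      · rw [hi, sub_add_cancel]
      · have h2 := h (P₀ - P i) (Finset.mem_insert_of_mem (Finset.mem_insert_of_mem
          (Finset.mem_image_of_mem (fun i => P₀ - P i)
            (Finset.mem_filter.2 ⟨Finset.mem_univ i, hi⟩))))
        rw [eval_sub, ← sub_add] at h2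
        exact h2
    simp only [χ₀] at h1
    rw [dif_pos hx] at h1
    by_cases h2 : (X * Q₁).eval d * (x - P₀.eval d + (P i).eval d) ≠ 0
    · rw [dif_pos h2] at h1
      exact ⟨h2, Option.some.inj h1⟩
    · rw [dif_neg h2] at h1
      exact absurd h1 (by simp)

end Pool.Agent.Results.MP_5597c5_co.SimpleZero
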